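import Pool.Agent.Helper30.C9.Gen

/-!
# Root data of the Lie algebra E6
-/

set_option autoImplicit false

open Matrix Module

namespace C9

/-- the roots of `E6`: coordinates plus 8, in base 16 -/
def E6T : ℕ :=
  8069213134380861033292843997779366551283400678831820275987766672120897443514706224658570488138136294512199059680351101684708354223341602272561893478211093952537650303874263329678849327053650265173451063717430480876108087642951891358465561134481098794860111271806265934915204943574967021146417245177021190076421371359429550509399851933602968478371545274476226136518517340869482693720597078509173319977920863786798640492099512500760999252537558420187932690693754529494571775632220496903763964795204666558047806030285932681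

/-- the inner products with the simple roots plus 8, in base 16 -/
def E6W : ℕ :=
  8069226661468769205940223834084203987761542793278887774026362146719956054142142808655473396242456691648809083130915636268583565639637766410813101671309561337252879724122296718655028191848741384112147680545878217882363344176248646208046607446966989895464730162445713977609118299318373148909618649537875735544465949438819927804028062719455208786040219424011936799644730917814897131752166129677856045109566004733561426651470404104300837854262743829605758180937919158965910322259603858371849747399865228555243721132186568826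

/-- the root data of `E6` -/
def E6 : RD 6 72 where
  G := !![2, -1, 0, 0, 0, 0; -1, 2, -1, 0, 0, 0; 0, -1, 2, -1, 0, -1; 0, 0, -1, 2, -1, 0; 0, 0, 0, -1, 2, 0; 0, 0, -1, 0, 0, 2]
  B := !![1, -1, 0, 0, 0, 0; 0, 1, -1, 0, 0, 0; 0, 0, 1, 0, 0, 0; 0, 0, -1, 1, 0, 0; 0, 0, 0, -1, 1, 0; 0, 0, -1, 0, 0, 1]
  Gi := !![4, 5, 6, 4, 2, 3; 5, 10, 12, 8, 4, 6; 6, 12, 18, 12, 6, 9; 4, 8, 12, 10, 5, 6; 2, 4, 6, 5, 4, 3; 3, 6, 9, 6, 3, 6]
  d := 3
  v := fun a i => ((E6T >>> (4 * (6 * a.1 + i.1)) % 16 : ℕ) : ℤ) - 8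
  y := ![1, 0, 0, 0, 0, 0]

/-- the code of a root -/
def E6cd (a : ℕ) : ℕ := E6T >>> (24 * a) % 16777216

/-- the code of the inner products -/
def E6wc (a : ℕ) : ℕ := E6W >>> (24 * a) % 16777216

/-- the list of the codes -/
def E6L : List (ℕ × ℕ) :=
  [(8947849, 8947834), (8947865, 8947609), (8948121, 7895433), (9996697, 9992329), (8952217, 7837833),
    (10000793, 9934729), (9017753, 7964809), (10066329, 10061705), (10001049, 8882553), (10066585, 9009529),
    (10070681, 8951929), (10001065, 8882328), (10066601, 9009304), (10070697, 8951704), (10070953, 7899528),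
    (11119529, 9996424), (9996424, 11044744), (9013384, 9074824), (8951944, 8890248), (9017480, 9017224),
    (8948104, 7895672), (9996680, 9992568), (8952200, 7838072), (10000776, 9934968), (9017736, 7965048),
    (10066312, 10061944), (8947864, 8947623), (8948120, 7895447), (9996696, 9992343), (8952216, 7837847),
    (10000792, 9934743), (9017752, 7964823), (10066328, 10061719), (10001048, 8882567), (10066584, 9009543),
    (10070680, 8951943), (7825016, 8943753), (7829112, 8886153), (7894648, 9013129), (7829368, 7833977),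
    (8877944, 9930873), (7894904, 7960953), (8943480, 10057849), (7899000, 7903353), (8947576, 10000249),
    (8947832, 8948073), (7829384, 7833752), (8877960, 9930648), (7894920, 7960728), (8943496, 10057624),
    (7899016, 7903128), (8947592, 10000024), (8878216, 8878472), (8943752, 9005448), (8882312, 8820872),
    (7899272, 6850952), (6776167, 7899272), (7824743, 9996168), (7824999, 8943992), (7829095, 8886392),
    (7894631, 9013368), (7825015, 8943767), (7829111, 8886167), (7894647, 9013143), (7829367, 7833991),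
    (8877943, 9930887), (7894903, 7960967), (8943479, 10057863), (7898999, 7903367), (8947575, 10000263),
    (8947831, 8948087), (8947847, 8947862)]

theorem E6L_eq : E6L = (List.range 72).map fun a => (E6cd a, E6wc a) := by decide +kernel

theorem E6chk : E6L.all (chk30 6 E6L 8947848) = true := by decide +kernel

theorem E6_U : ∀ (a : Fin 72) (i : Fin 6), E6.v a i = ((E6cd a.1 / 16 ^ i.1 % 16 : ℕ) : ℤ) - 8 := by
  decide +kernel

theorem E6_W : ∀ (a : Fin 72) (i : Fin 6),
    ∑ j, E6.G i j * E6.v a j = ((E6wc a.1 / 16 ^ i.1 % 16 : ℕ) : ℤ) - 8 := by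
  decide +kernel

theorem E6_lt : ∀ a : Fin 72, E6cd a.1 < 16 ^ 6 := by decide +kernel

theorem E6_b : ∀ (a : Fin 72) (i : Fin 6), -4 ≤ E6.v a i ∧ E6.v a i ≤ 4 := by decide +kernel

theorem E6_cinj : ∀ a b : Fin 72, E6cd a.1 = E6cd b.1 → a = b := by decide +kernel

theorem E6_two : ∀ a, E6.ip (E6.v a) (E6.v a) = 2 := by decide +kernel

theorem E6_neg : ∀ a, E6.v (Fin.rev a) = -E6.v a := by decide +kernel

theorem E6_simp : ∀ i, ∃ a, E6.v a = Pi.single i 1 := by decide +kernel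

theorem E6_gi : E6.G * E6.Gi = E6.d • (1 : Matrix (Fin 6) (Fin 6) ℤ) := by decide +kernel

theorem E6_gb : E6.G = E6.B + E6.Bᵀ := by decide +kernel

theorem E6_pd (x : Fin 6 → ℝ) (hx : x ≠ 0) : 0 < ∑ i, ∑ j, x i * (E6.G i j : ℝ) * x j := by
  have h : ∑ i, ∑ j, x i * (E6.G i j : ℝ) * x j = (2) * (x 0 + (-1 / 2) * x 1) ^ 2 +
      (3 / 2) * (x 1 + (-2 / 3) * x 2) ^ 2 +
      (4 / 3) * (x 2 + (-3 / 4) * x 3 + (-3 / 4) * x 5) ^ 2 +
      (5 / 4) * (x 3 + (-4 / 5) * x 4 + (-3 / 5) * x 5) ^ 2 +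
      (6 / 5) * (x 4 + (-1 / 2) * x 5) ^ 2 +
      (1 / 2) * (x 5) ^ 2 := by
    simp [E6, Fin.sum_univ_succ]
    ring
  rw [h]
  by_contra hcon
  push Not at hcon
  have s0 : (x 0 + (-1 / 2) * x 1) ^ 2 = 0 := le_antisymm (by nlinarith [sq_nonneg (x 1 + (-2 / 3) * x 2), sq_nonneg (x 2 + (-3 / 4) * x 3 + (-3 / 4) * x 5), sq_nonneg (x 3 + (-4 / 5) * x 4 + (-3 / 5) * x 5), sq_nonneg (x 4 + (-1 / 2) * x 5), sq_nonneg (x 5)]) (sq_nonneg _)
  have s1 : (x 1 + (-2 / 3) * x 2) ^ 2 = 0 := le_antisymm (by nlinarith [sq_nonneg (x 0 + (-1 / 2) * x 1), sq_nonneg (x 2 + (-3 / 4) * x 3 + (-3 / 4) * x 5), sq_nonneg (x 3 + (-4 / 5) * x 4 + (-3 / 5) * x 5), sq_nonneg (x 4 + (-1 / 2) * x 5), sq_nonneg (x 5)]) (sq_nonneg _)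
  have s2 : (x 2 + (-3 / 4) * x 3 + (-3 / 4) * x 5) ^ 2 = 0 := le_antisymm (by nlinarith [sq_nonneg (x 0 + (-1 / 2) * x 1), sq_nonneg (x 1 + (-2 / 3) * x 2), sq_nonneg (x 3 + (-4 / 5) * x 4 + (-3 / 5) * x 5), sq_nonneg (x 4 + (-1 / 2) * x 5), sq_nonneg (x 5)]) (sq_nonneg _)
  have s3 : (x 3 + (-4 / 5) * x 4 + (-3 / 5) * x 5) ^ 2 = 0 := le_antisymm (by nlinarith [sq_nonneg (x 0 + (-1 / 2) * x 1), sq_nonneg (x 1 + (-2 / 3) * x 2), sq_nonneg (x 2 + (-3 / 4) * x 3 + (-3 / 4) * x 5), sq_nonneg (x 4 + (-1 / 2) * x 5), sq_nonneg (x 5)]) (sq_nonneg _)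
  have s4 : (x 4 + (-1 / 2) * x 5) ^ 2 = 0 := le_antisymm (by nlinarith [sq_nonneg (x 0 + (-1 / 2) * x 1), sq_nonneg (x 1 + (-2 / 3) * x 2), sq_nonneg (x 2 + (-3 / 4) * x 3 + (-3 / 4) * x 5), sq_nonneg (x 3 + (-4 / 5) * x 4 + (-3 / 5) * x 5), sq_nonneg (x 5)]) (sq_nonneg _)
  have s5 : (x 5) ^ 2 = 0 := le_antisymm (by nlinarith [sq_nonneg (x 0 + (-1 / 2) * x 1), sq_nonneg (x 1 + (-2 / 3) * x 2), sq_nonneg (x 2 + (-3 / 4) * x 3 + (-3 / 4) * x 5), sq_nonneg (x 3 + (-4 / 5) * x 4 + (-3 / 5) * x 5), sq_nonneg (x 4 + (-1 / 2) * x 5)]) (sq_nonneg _)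
  have t0 : x 0 + (-1 / 2) * x 1 = 0 := by simpa using s0
  have t1 : x 1 + (-2 / 3) * x 2 = 0 := by simpa using s1
  have t2 : x 2 + (-3 / 4) * x 3 + (-3 / 4) * x 5 = 0 := by simpa using s2
  have t3 : x 3 + (-4 / 5) * x 4 + (-3 / 5) * x 5 = 0 := by simpa using s3
  have t4 : x 4 + (-1 / 2) * x 5 = 0 := by simpa using s4
  have t5 : x 5 = 0 := by simpa using s5
  have u5 : x 5 = 0 := by linarith
  have u4 : x 4 = 0 := by linarith
  have u3 : x 3 = 0 := by linarith
  have u2 : x 2 = 0 := by linarith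
  have u1 : x 1 = 0 := by linarith
  have u0 : x 0 = 0 := by linarith
  apply hx
  funext i
  fin_cases i
  · exact u0
  · exact u1
  · exact u2
  · exact u3
  · exact u4
  · exact u5

theorem E6_ok : E6.Ok where
  gb := fun i j => congrFun (congrFun E6_gb i) j
  two := E6_two
  inj := inj_of_code30 E6 (fun a => E6cd a.1) E6_U E6_lt E6_cinj
  neg := fun a => ⟨_, E6_neg a⟩
  add := fun a b => add_of_check30 E6 E6L (fun a => E6cd a.1) (fun a => E6wc a.1) (by decide) E6_U E6_W
    E6_lt (fun a => by rw [E6L_eq]; exact List.mem_map.2 ⟨a.1, List.mem_range.2 a.2, rfl⟩)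
    (fun s hs => by
      rw [E6L_eq] at hs
      obtain ⟨c, hc, rfl⟩ := List.mem_map.1 hs
      exact ⟨⟨c, List.mem_range.1 hc⟩, rfl⟩) E6_b E6chk a b
  bd := bd_of_pd30 E6 (fun i j => by
    rw [show E6.G i j = E6.B i j + E6.B j i from congrFun (congrFun E6_gb i) j,
      show E6.G j i = E6.B j i + E6.B i j from congrFun (congrFun E6_gb j) i, add_comm]) E6_two E6_pd
  simp := E6_simp
  gi := E6_gi
  d0 := by decide
  pd := E6_pd

theorem E6.ok : E6.Ok := E6_ok

theorem E6_h1 : ∀ a, E6.lev (E6.v a) = -1 ∨ E6.lev (E6.v a) = 0 ∨ E6.lev (E6.v a) = 1 := by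
  decide +kernel

theorem E6_c1' : ∀ j, E6.y j = 0 → ∃ a, E6.lev (E6.v a) = 1 ∧ ∃ b, E6.v b = E6.v a + Pi.single j 1 := by
  decide +kernel

theorem E6_c1 : ∀ j, E6.y j = 0 → ∃ a b, E6.lev (E6.v a) = 1 ∧ E6.v b = E6.v a + Pi.single j 1 :=
  fun j hj => let ⟨a, h1, b, h2⟩ := E6_c1' j hj; ⟨a, b, h1, h2⟩

theorem E6_c2' : ∀ a, E6.lev (E6.v a) = 1 → ∀ b, E6.lev (E6.v b) = 1 →
    ∃ c, E6.lev (E6.v c) = 1 ∧ E6.ip (E6.v a) (E6.v c) ≠ 0 ∧ E6.ip (E6.v c) (E6.v b) ≠ 0 := by
  decide +kernel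

theorem E6_c2 : ∀ a b, E6.lev (E6.v a) = 1 → E6.lev (E6.v b) = 1 →
    ∃ c, E6.lev (E6.v c) = 1 ∧ E6.ip (E6.v a) (E6.v c) ≠ 0 ∧ E6.ip (E6.v c) (E6.v b) ≠ 0 :=
  fun a b ha hb => E6_c2' a ha b hb

theorem E6_c3 : ∀ c, E6.lev (E6.v c) = 0 → ∃ a, E6.lev (E6.v a) = 1 ∧ E6.ip (E6.v a) (E6.v c) = -1 := by
  decide +kernel

theorem E6_c4 : ∃ a, E6.lev (E6.v a) = 1 := by decide +kernel

theorem E6_c5 : ∀ i, ∑ b, E6.ip (Pi.single i 1) (E6.v b) * E6.lev (E6.v b) = 24 * E6.y i := by
  decide +kernel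

theorem E6_hs : (Finset.univ.filter fun a => E6.lev (E6.v a) = 1).card = 16 := by decide +kernel

theorem E6_ht : 6 + (Finset.univ.filter fun a => E6.lev (E6.v a) = 0).card = 46 := by decide +kernel

theorem E6_hrk : 6 + 72 < 2 * 16 * 46 := by norm_num

end C9
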