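import Pool.Agent.Helper30.C9.Gen

/-!
# Root data of the Lie algebra E7
-/

set_option autoImplicit false

open Matrix Module

namespace C9

/-- the roots of `E7`: coordinates plus 8, in base 16 -/
def E7T : ℕ :=
  572309370570664140822589193817215152802574152292277003543321908937169221094211317135363158719695469556430007240480754624957622529146766794224974553307401819778644279154933680981934724358686785322868302480007102193973972472895412955968924793543303189136159918987324220442712706985730438619224465436386742450133657391499532808165633043547436556224521508607714065213120949570902494230673355903135771929125896738606913869474885012505000003452036590939221286865927667103228530941551446415677877081914393575163831490895806912387043523532962836152654959630531314506138495615549233210312543321609878216912757003336939407842313221368608875290296181845457805563842582306696879816639606005258496978411373492112600312683144003766615078090573477880721317040366087823120725847815481985916481751621931011254642169248560652162080041807698535327258038039328885975673475270066907664882415491650556240307047361798438984264199482317411599651582065327159393136354203907192295475876814565350170823358369978394650761345568379275076788785426323600616110633348246515926732988850510530696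

/-- the inner products with the simple roots plus 8, in base 16 -/
def E7W : ℕ :=
  568350639373536704243700569844458222634379241961407171319356808249862334356021052036396517566328896021155133276736048015688505852763219502631176399778417086507224323794163830159783554043758214421594173025636406696696172458665489949828674611206617675735010135334563293609308818337207701355648013182301499206913986449816199138413590981533730587801616230376179134862431770267648511585637909193686248225062365956967963753124374047459038945309042557842773408679493299048334632816271732166869165436319860736982725093018512306119898741154714956359690759903747102117419358523497662132019799836685162424260109695718105791275941548649373818936319583290729749020602182328841179148616162064987563797164321137667952308765105678769780422038158042186442668165301456890081816687234334222837044309912751618779382902568795976874244741141297876366899113694329089719219401892182026789150132897766779558082550690641131385486348303211344728203254213863745543945926800934253418281827443410788178067320561726064109342955329462841112628557937227278509411892186813420867693728587382753416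

/-- the root data of `E7` -/
def E7 : RD 7 126 where
  G := !![2, -1, 0, 0, 0, 0, 0; -1, 2, -1, 0, 0, 0, 0; 0, -1, 2, -1, 0, 0, -1; 0, 0, -1, 2, -1, 0, 0; 0, 0, 0, -1, 2, -1, 0; 0, 0, 0, 0, -1, 2, 0; 0, 0, -1, 0, 0, 0, 2]
  B := !![1, -1, 0, 0, 0, 0, 0; 0, 1, -1, 0, 0, 0, 0; 0, 0, 1, -1, 0, 0, -1; 0, 0, 0, 1, -1, 0, 0; 0, 0, 0, 0, 1, -1, 0; 0, 0, 0, 0, 0, 1, 0; 0, 0, 0, 0, 0, 0, 1]
  Gi := !![4, 6, 8, 6, 4, 2, 4; 6, 12, 16, 12, 8, 4, 8; 8, 16, 24, 18, 12, 6, 12; 6, 12, 18, 15, 10, 5, 9; 4, 8, 12, 10, 8, 4, 6; 2, 4, 6, 5, 4, 3, 3; 4, 8, 12, 9, 6, 3, 7]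
  d := 2
  v := fun a i => ((E7T >>> (4 * (7 * a.1 + i.1)) % 16 : ℕ) : ℤ) - 8
  y := ![0, 0, 0, 0, 0, 1, 0]

/-- the code of a root -/
def E7cd (a : ℕ) : ℕ := E7T >>> (28 * a) % 268435456

/-- the code of the inner products -/
def E7wc (a : ℕ) : ℕ := E7W >>> (28 * a) % 268435456

/-- the list of the codes -/
def E7L : List (ℕ × ℕ) :=
  [(144214152, 145197192), (144279688, 144275592), (144283784, 144217992), (144284040, 127437176),
    (161061256, 160991352), (144284056, 127436951), (161061272, 160991127), (161061528, 144210311),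
    (161065624, 144152711), (161131160, 143231111), (144284057, 127436937), (161061273, 160991113),
    (161061529, 144210297), (161065625, 144152697), (161131161, 143231097), (161061545, 144210072),
    (161065641, 144152472), (161131177, 143230872), (161065897, 127371656), (177843113, 160925832),
    (161131433, 126450056), (177908649, 160004232), (161135529, 126392456), (177912745, 159946632),
    (177913001, 143165816), (177913017, 143165591), (177913018, 143165577), (159942792, 176719752),
    (143231112, 142243976), (143169672, 143107976), (143235208, 142186376), (143165832, 126384760),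
    (159943048, 159938936), (143169928, 126327160), (159947144, 159881336), (143235464, 125405560),
    (160012680, 158959736), (143165592, 143165351), (143165848, 126384535), (159943064, 159938711),
    (143169944, 126326935), (159947160, 159881111), (143235480, 125405335), (160012696, 158959511),
    (159947416, 143100295), (160012952, 142178695), (160017048, 142121095), (143165577, 143165562),
    (143165593, 143165337), (143165849, 126384521), (159943065, 159938697), (143169945, 126326921),
    (159947161, 159881097), (143235481, 125405321), (160012697, 158959497), (159947417, 143100281),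
    (160012953, 142178681), (160017049, 142121081), (159947433, 143100056), (160012969, 142178456),
    (160017065, 142120856), (160017321, 125340040), (176794537, 158894216), (109536615, 127436936),
    (126313831, 160991112), (126314087, 144210296), (126318183, 144152696), (126383719, 143231096),
    (126314103, 144210071), (126318199, 144152471), (126383735, 143230871), (126318455, 127371655),
    (143095671, 160925831), (126383991, 126450055), (143161207, 160004231), (126388087, 126392455),
    (143165303, 159946631), (143165559, 143165815), (143165575, 143165590), (126314104, 144210057),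
    (126318200, 144152457), (126383736, 143230857), (126318456, 127371641), (143095672, 160925817),
    (126383992, 126450041), (143161208, 160004217), (126388088, 126392441), (143165304, 159946617),
    (143165560, 143165801), (126318472, 127371416), (143095688, 160925592), (126384008, 126449816),
    (143161224, 160003992), (126388104, 126392216), (143165320, 159946392), (143095944, 144144776),
    (143161480, 143223176), (143100040, 144087176), (126388360, 109611400), (108418134, 143165575),
    (108418135, 143165561), (108418151, 143165336), (108418407, 126384520), (125195623, 159938696),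
    (108422503, 126326920), (125199719, 159881096), (108488039, 125405320), (125265255, 158959496),
    (125199975, 143100280), (125265511, 142178680), (125269607, 142121080), (125199991, 143100055),
    (125265527, 142178455), (125269623, 142120855), (125269879, 125340039), (142047095, 158894215),
    (125199992, 143100041), (125265528, 142178441), (125269624, 142120841), (125269880, 125340025),
    (142047096, 158894201), (125269896, 125339800), (142047112, 158893976), (142047368, 142113160),
    (142051464, 142055560), (142117000, 141133960)]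

theorem E7L_eq : E7L = (List.range 126).map fun a => (E7cd a, E7wc a) := by decide +kernel

theorem E7chk : E7L.all (chk30 7 E7L 143165576) = true := by decide +kernel

theorem E7_U : ∀ (a : Fin 126) (i : Fin 7), E7.v a i = ((E7cd a.1 / 16 ^ i.1 % 16 : ℕ) : ℤ) - 8 := by
  decide +kernel

theorem E7_W : ∀ (a : Fin 126) (i : Fin 7),
    ∑ j, E7.G i j * E7.v a j = ((E7wc a.1 / 16 ^ i.1 % 16 : ℕ) : ℤ) - 8 := by
  decide +kernel

theorem E7_lt : ∀ a : Fin 126, E7cd a.1 < 16 ^ 7 := by decide +kernel

theorem E7_b : ∀ (a : Fin 126) (i : Fin 7), -4 ≤ E7.v a i ∧ E7.v a i ≤ 4 := by decide +kernel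

theorem E7_cinj : ∀ a b : Fin 126, E7cd a.1 = E7cd b.1 → a = b := by decide +kernel

theorem E7_two : ∀ a, E7.ip (E7.v a) (E7.v a) = 2 := by decide +kernel

theorem E7_neg : ∀ a, E7.v (Fin.rev a) = -E7.v a := by decide +kernel

theorem E7_simp : ∀ i, ∃ a, E7.v a = Pi.single i 1 := by decide +kernel

theorem E7_gi : E7.G * E7.Gi = E7.d • (1 : Matrix (Fin 7) (Fin 7) ℤ) := by decide +kernel

theorem E7_gb : E7.G = E7.B + E7.Bᵀ := by decide +kernel

theorem E7_pd (x : Fin 7 → ℝ) (hx : x ≠ 0) : 0 < ∑ i, ∑ j, x i * (E7.G i j : ℝ) * x j := by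
  have h : ∑ i, ∑ j, x i * (E7.G i j : ℝ) * x j = (2) * (x 0 + (-1 / 2) * x 1) ^ 2 +
      (3 / 2) * (x 1 + (-2 / 3) * x 2) ^ 2 +
      (4 / 3) * (x 2 + (-3 / 4) * x 3 + (-3 / 4) * x 6) ^ 2 +
      (5 / 4) * (x 3 + (-4 / 5) * x 4 + (-3 / 5) * x 6) ^ 2 +
      (6 / 5) * (x 4 + (-5 / 6) * x 5 + (-1 / 2) * x 6) ^ 2 +
      (7 / 6) * (x 5 + (-3 / 7) * x 6) ^ 2 +
      (2 / 7) * (x 6) ^ 2 := by
    simp [E7, Fin.sum_univ_succ]
    ring
  rw [h]
  by_contra hcon
  push Not at hcon
  have s0 : (x 0 + (-1 / 2) * x 1) ^ 2 = 0 := le_antisymm (by nlinarith [sq_nonneg (x 1 + (-2 / 3) * x 2), sq_nonneg (x 2 + (-3 / 4) * x 3 + (-3 / 4) * x 6), sq_nonneg (x 3 + (-4 / 5) * x 4 + (-3 / 5) * x 6), sq_nonneg (x 4 + (-5 / 6) * x 5 + (-1 / 2) * x 6), sq_nonneg (x 5 + (-3 / 7) * x 6), sq_nonneg (x 6)]) (sq_nonneg _)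
  have s1 : (x 1 + (-2 / 3) * x 2) ^ 2 = 0 := le_antisymm (by nlinarith [sq_nonneg (x 0 + (-1 / 2) * x 1), sq_nonneg (x 2 + (-3 / 4) * x 3 + (-3 / 4) * x 6), sq_nonneg (x 3 + (-4 / 5) * x 4 + (-3 / 5) * x 6), sq_nonneg (x 4 + (-5 / 6) * x 5 + (-1 / 2) * x 6), sq_nonneg (x 5 + (-3 / 7) * x 6), sq_nonneg (x 6)]) (sq_nonneg _)
  have s2 : (x 2 + (-3 / 4) * x 3 + (-3 / 4) * x 6) ^ 2 = 0 := le_antisymm (by nlinarith [sq_nonneg (x 0 + (-1 / 2) * x 1), sq_nonneg (x 1 + (-2 / 3) * x 2), sq_nonneg (x 3 + (-4 / 5) * x 4 + (-3 / 5) * x 6), sq_nonneg (x 4 + (-5 / 6) * x 5 + (-1 / 2) * x 6), sq_nonneg (x 5 + (-3 / 7) * x 6), sq_nonneg (x 6)]) (sq_nonneg _)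
  have s3 : (x 3 + (-4 / 5) * x 4 + (-3 / 5) * x 6) ^ 2 = 0 := le_antisymm (by nlinarith [sq_nonneg (x 0 + (-1 / 2) * x 1), sq_nonneg (x 1 + (-2 / 3) * x 2), sq_nonneg (x 2 + (-3 / 4) * x 3 + (-3 / 4) * x 6), sq_nonneg (x 4 + (-5 / 6) * x 5 + (-1 / 2) * x 6), sq_nonneg (x 5 + (-3 / 7) * x 6), sq_nonneg (x 6)]) (sq_nonneg _)
  have s4 : (x 4 + (-5 / 6) * x 5 + (-1 / 2) * x 6) ^ 2 = 0 := le_antisymm (by nlinarith [sq_nonneg (x 0 + (-1 / 2) * x 1), sq_nonneg (x 1 + (-2 / 3) * x 2), sq_nonneg (x 2 + (-3 / 4) * x 3 + (-3 / 4) * x 6), sq_nonneg (x 3 + (-4 / 5) * x 4 + (-3 / 5) * x 6), sq_nonneg (x 5 + (-3 / 7) * x 6), sq_nonneg (x 6)]) (sq_nonneg _)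
  have s5 : (x 5 + (-3 / 7) * x 6) ^ 2 = 0 := le_antisymm (by nlinarith [sq_nonneg (x 0 + (-1 / 2) * x 1), sq_nonneg (x 1 + (-2 / 3) * x 2), sq_nonneg (x 2 + (-3 / 4) * x 3 + (-3 / 4) * x 6), sq_nonneg (x 3 + (-4 / 5) * x 4 + (-3 / 5) * x 6), sq_nonneg (x 4 + (-5 / 6) * x 5 + (-1 / 2) * x 6), sq_nonneg (x 6)]) (sq_nonneg _)
  have s6 : (x 6) ^ 2 = 0 := le_antisymm (by nlinarith [sq_nonneg (x 0 + (-1 / 2) * x 1), sq_nonneg (x 1 + (-2 / 3) * x 2), sq_nonneg (x 2 + (-3 / 4) * x 3 + (-3 / 4) * x 6), sq_nonneg (x 3 + (-4 / 5) * x 4 + (-3 / 5) * x 6), sq_nonneg (x 4 + (-5 / 6) * x 5 + (-1 / 2) * x 6), sq_nonneg (x 5 + (-3 / 7) * x 6)]) (sq_nonneg _)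
  have t0 : x 0 + (-1 / 2) * x 1 = 0 := by simpa using s0
  have t1 : x 1 + (-2 / 3) * x 2 = 0 := by simpa using s1
  have t2 : x 2 + (-3 / 4) * x 3 + (-3 / 4) * x 6 = 0 := by simpa using s2
  have t3 : x 3 + (-4 / 5) * x 4 + (-3 / 5) * x 6 = 0 := by simpa using s3
  have t4 : x 4 + (-5 / 6) * x 5 + (-1 / 2) * x 6 = 0 := by simpa using s4
  have t5 : x 5 + (-3 / 7) * x 6 = 0 := by simpa using s5
  have t6 : x 6 = 0 := by simpa using s6
  have u6 : x 6 = 0 := by linarith
  have u5 : x 5 = 0 := by linarith
  have u4 : x 4 = 0 := by linarith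
  have u3 : x 3 = 0 := by linarith
  have u2 : x 2 = 0 := by linarith
  have u1 : x 1 = 0 := by linarith
  have u0 : x 0 = 0 := by linarith
  apply hx
  funext i
  fin_cases i
  · exact u0
  · exact u1
  · exact u2
  · exact u3
  · exact u4
  · exact u5
  · exact u6

theorem E7_ok : E7.Ok where
  gb := fun i j => congrFun (congrFun E7_gb i) j
  two := E7_two
  inj := inj_of_code30 E7 (fun a => E7cd a.1) E7_U E7_lt E7_cinj
  neg := fun a => ⟨_, E7_neg a⟩
  add := fun a b => add_of_check30 E7 E7L (fun a => E7cd a.1) (fun a => E7wc a.1) (by decide) E7_U E7_W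
    E7_lt (fun a => by rw [E7L_eq]; exact List.mem_map.2 ⟨a.1, List.mem_range.2 a.2, rfl⟩)
    (fun s hs => by
      rw [E7L_eq] at hs
      obtain ⟨c, hc, rfl⟩ := List.mem_map.1 hs
      exact ⟨⟨c, List.mem_range.1 hc⟩, rfl⟩) E7_b E7chk a b
  bd := bd_of_pd30 E7 (fun i j => by
    rw [show E7.G i j = E7.B i j + E7.B j i from congrFun (congrFun E7_gb i) j,
      show E7.G j i = E7.B j i + E7.B i j from congrFun (congrFun E7_gb j) i, add_comm]) E7_two E7_pd
  simp := E7_simp
  gi := E7_gi
  d0 := by decide
  pd := E7_pd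

theorem E7.ok : E7.Ok := E7_ok

theorem E7_h1 : ∀ a, E7.lev (E7.v a) = -1 ∨ E7.lev (E7.v a) = 0 ∨ E7.lev (E7.v a) = 1 := by
  decide +kernel

theorem E7_c1' : ∀ j, E7.y j = 0 → ∃ a, E7.lev (E7.v a) = 1 ∧ ∃ b, E7.v b = E7.v a + Pi.single j 1 := by
  decide +kernel

theorem E7_c1 : ∀ j, E7.y j = 0 → ∃ a b, E7.lev (E7.v a) = 1 ∧ E7.v b = E7.v a + Pi.single j 1 :=
  fun j hj => let ⟨a, h1, b, h2⟩ := E7_c1' j hj; ⟨a, b, h1, h2⟩

theorem E7_c2' : ∀ a, E7.lev (E7.v a) = 1 → ∀ b, E7.lev (E7.v b) = 1 →
    ∃ c, E7.lev (E7.v c) = 1 ∧ E7.ip (E7.v a) (E7.v c) ≠ 0 ∧ E7.ip (E7.v c) (E7.v b) ≠ 0 := by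
  decide +kernel

theorem E7_c2 : ∀ a b, E7.lev (E7.v a) = 1 → E7.lev (E7.v b) = 1 →
    ∃ c, E7.lev (E7.v c) = 1 ∧ E7.ip (E7.v a) (E7.v c) ≠ 0 ∧ E7.ip (E7.v c) (E7.v b) ≠ 0 :=
  fun a b ha hb => E7_c2' a ha b hb

theorem E7_c3 : ∀ c, E7.lev (E7.v c) = 0 → ∃ a, E7.lev (E7.v a) = 1 ∧ E7.ip (E7.v a) (E7.v c) = -1 := by
  decide +kernel

theorem E7_c4 : ∃ a, E7.lev (E7.v a) = 1 := by decide +kernel

theorem E7_c5 : ∀ i, ∑ b, E7.ip (Pi.single i 1) (E7.v b) * E7.lev (E7.v b) = 36 * E7.y i := by
  decide +kernel

theorem E7_hs : (Finset.univ.filter fun a => E7.lev (E7.v a) = 1).card = 27 := by decide +kernel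

theorem E7_ht : 7 + (Finset.univ.filter fun a => E7.lev (E7.v a) = 0).card = 79 := by decide +kernel

theorem E7_hrk : 7 + 126 < 2 * 27 * 79 := by norm_num

end C9
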