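import Pool.Agent.Helper81.C9.Defs

/-!
# Root data: the closure under addition from a check of codes
-/

set_option autoImplicit false

open Matrix Module Finset

namespace C9

/-- sum of the products of the first digits in base 16 -/
def dotn30 : ℕ → ℕ → ℕ → ℕ
  | 0, _, _ => 0
  | n + 1, x, y => (x % 16) * (y % 16) + dotn30 n (x / 16) (y / 16)

/-- sum of the first digits in base 16 -/
def sumn30 : ℕ → ℕ → ℕ
  | 0, _ => 0
  | n + 1, x => x % 16 + sumn30 n (x / 16)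

theorem dotn30_eq (n : ℕ) : ∀ x y : ℕ, dotn30 n x y = ∑ i ∈ range n, (x / 16 ^ i % 16) * (y / 16 ^ i % 16) := by
  induction n with
  | zero => intro x y; rfl
  | succ n ih =>
    intro x y
    rw [dotn30, ih, Finset.sum_range_succ', add_comm]
    simp only [pow_zero, Nat.div_one, pow_succ', Nat.div_div_eq_div_mul]

theorem sumn30_eq (n : ℕ) : ∀ x : ℕ, sumn30 n x = ∑ i ∈ range n, (x / 16 ^ i % 16) := by
  induction n with
  | zero => intro x; rfl
  | succ n ih =>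
    intro x
    rw [sumn30, ih, Finset.sum_range_succ', add_comm]
    simp only [pow_zero, Nat.div_one, pow_succ', Nat.div_div_eq_div_mul]

theorem digits30 (n x : ℕ) : ∑ i ∈ range n, (x / 16 ^ i % 16) * 16 ^ i = x % 16 ^ n := by
  induction n with
  | zero => simp [Nat.mod_one]
  | succ n ih => rw [Finset.sum_range_succ, ih, Nat.mod_pow_succ, mul_comm]

theorem digits_zero30 (n : ℕ) : ∀ δ : ℕ → ℤ, (∀ i < n, |δ i| < 16) → ∑ i ∈ range n, δ i * 16 ^ i = 0 →
    ∀ i < n, δ i = 0 := by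
  induction n with
  | zero => intro δ _ _ i hi; omega
  | succ n ih =>
    intro δ hb h
    rw [Finset.sum_range_succ'] at h
    have e : ∑ i ∈ range n, δ (i + 1) * (16 : ℤ) ^ (i + 1) = 16 * ∑ i ∈ range n, δ (i + 1) * (16 : ℤ) ^ i := by
      rw [Finset.mul_sum]
      refine Finset.sum_congr rfl fun i _ => ?_
      ring
    rw [e] at h
    have h0 := hb 0 (Nat.succ_pos n)
    rw [abs_lt] at h0
    simp only [pow_zero, mul_one] at h
    have z0 : δ 0 = 0 := by omega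
    have z1 : ∑ i ∈ range n, δ (i + 1) * (16 : ℤ) ^ i = 0 := by omega
    have z2 := ih (fun i => δ (i + 1)) (fun i hi => hb (i + 1) (by omega)) z1
    intro i hi
    rcases i with _ | i
    · exact z0
    · exact z2 i (by omega)

/-- the offset -/
def off30 (r : ℕ) : ℕ := ∑ i ∈ range r, 8 * 16 ^ i

/-- the check of one root -/
def chk30 (r : ℕ) (L : List (ℕ × ℕ)) (o : ℕ) (q : ℕ × ℕ) : Bool :=
  L.all fun p => (!(Nat.beq (dotn30 r q.1 p.2 + (64 * r + 1)) (8 * (sumn30 r q.1 + sumn30 r p.2)))) ||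
    (L.any fun s => Nat.beq (s.1 + o) (q.1 + p.1))

theorem add_of_check30 {r N : ℕ} (D : RD r N) (L : List (ℕ × ℕ)) (cd wc : Fin N → ℕ) {o : ℕ} (ho : o = off30 r)
    (hU : ∀ a i, D.v a i = ((cd a / 16 ^ i.1 % 16 : ℕ) : ℤ) - 8)
    (hW : ∀ a i, ∑ j, D.G i j * D.v a j = ((wc a / 16 ^ i.1 % 16 : ℕ) : ℤ) - 8)
    (hlt : ∀ a, cd a < 16 ^ r) (hmem : ∀ a, (cd a, wc a) ∈ L) (hsurj : ∀ s ∈ L, ∃ c, cd c = s.1)
    (hb : ∀ a i, -4 ≤ D.v a i ∧ D.v a i ≤ 4) (hchk : L.all (chk30 r L o) = true) (a b : Fin N)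
    (hab : D.ip (D.v a) (D.v b) = -1) : ∃ c, D.v c = D.v a + D.v b := by
  have h1 : D.ip (D.v a) (D.v b) = ∑ i : Fin r, (((cd a / 16 ^ i.1 % 16 : ℕ) : ℤ) - 8) *
      (((wc b / 16 ^ i.1 % 16 : ℕ) : ℤ) - 8) := by
    unfold RD.ip
    refine Finset.sum_congr rfl fun i _ => ?_
    rw [← hW b i, ← hU a i, Finset.mul_sum]
    refine Finset.sum_congr rfl fun j _ => ?_
    ring
  have h2 : D.ip (D.v a) (D.v b) = (dotn30 r (cd a) (wc b) : ℤ) - 8 * (sumn30 r (cd a) : ℤ) -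
      8 * (sumn30 r (wc b) : ℤ) + 64 * r := by
    rw [h1, dotn30_eq, sumn30_eq, sumn30_eq]
    push_cast
    rw [← Fin.sum_univ_eq_sum_range (fun i => ((cd a : ℤ) / 16 ^ i % 16) * ((wc b : ℤ) / 16 ^ i % 16)) r,
      ← Fin.sum_univ_eq_sum_range (fun i => ((cd a : ℤ) / 16 ^ i % 16)) r,
      ← Fin.sum_univ_eq_sum_range (fun i => ((wc b : ℤ) / 16 ^ i % 16)) r, Finset.mul_sum, Finset.mul_sum,
      ← Finset.sum_sub_distrib, ← Finset.sum_sub_distrib]
    have e : (64 * (r : ℤ)) = ∑ _i : Fin r, (64 : ℤ) := by simp; ring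
    rw [e, ← Finset.sum_add_distrib]
    refine Finset.sum_congr rfl fun i _ => ?_
    ring
  have h3 := (List.all_eq_true.1 hchk) _ (hmem a)
  have h4 := (List.all_eq_true.1 h3) _ (hmem b)
  simp only [Bool.or_eq_true, Bool.not_eq_true', List.any_eq_true] at h4
  have h5 : dotn30 r (cd a) (wc b) + (64 * r + 1) = 8 * (sumn30 r (cd a) + sumn30 r (wc b)) := by
    rw [hab] at h2
    omega
  rcases h4 with h4 | ⟨s, hs, h4⟩
  · exfalso
    rw [h5, Nat.beq_refl] at h4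
    exact absurd h4 (by simp)
  · obtain ⟨c, hc⟩ := hsurj s hs
    have h6 : s.1 + o = cd a + cd b := Nat.eq_of_beq_eq_true h4
    rw [← hc] at h6
    refine ⟨c, ?_⟩
    have dg : ∀ x : Fin N, ∑ i ∈ range r, (cd x / 16 ^ i % 16) * 16 ^ i = cd x := by
      intro x
      rw [digits30, Nat.mod_eq_of_lt (hlt x)]
    have h7 : ∑ i ∈ range r, ((((cd c / 16 ^ i % 16 : ℕ) : ℤ) + 8) - ((cd a / 16 ^ i % 16 : ℕ) : ℤ) -
        ((cd b / 16 ^ i % 16 : ℕ) : ℤ)) * 16 ^ i = 0 := by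
      have e : ∀ i ∈ range r, ((((cd c / 16 ^ i % 16 : ℕ) : ℤ) + 8) - ((cd a / 16 ^ i % 16 : ℕ) : ℤ) -
          ((cd b / 16 ^ i % 16 : ℕ) : ℤ)) * 16 ^ i = (((cd c / 16 ^ i % 16) * 16 ^ i : ℕ) : ℤ) +
          ((8 * 16 ^ i : ℕ) : ℤ) - (((cd a / 16 ^ i % 16) * 16 ^ i : ℕ) : ℤ) -
          (((cd b / 16 ^ i % 16) * 16 ^ i : ℕ) : ℤ) := by
        intro i _
        push_cast
        ring
      rw [Finset.sum_congr rfl e, Finset.sum_sub_distrib, Finset.sum_sub_distrib, Finset.sum_add_distrib,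
        ← Nat.cast_sum, ← Nat.cast_sum, ← Nat.cast_sum, ← Nat.cast_sum, dg, dg, dg]
      rw [ho, off30] at h6
      have h8 : ((cd c + ∑ i ∈ range r, 8 * 16 ^ i : ℕ) : ℤ) = ((cd a + cd b : ℕ) : ℤ) := by rw [h6]
      rw [Nat.cast_add, Nat.cast_add] at h8
      linarith
    have h8 := digits_zero30 r _ (by
      intro i hi
      have ba := hb a ⟨i, hi⟩
      have bb := hb b ⟨i, hi⟩
      have bc := hb c ⟨i, hi⟩
      rw [hU] at ba bb bc
      simp only at ba bb bc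
      rw [abs_lt]
      constructor <;> linarith [ba.1, ba.2, bb.1, bb.2, bc.1, bc.2]) h7
    funext i
    have h9 := h8 i.1 i.2
    rw [Pi.add_apply, hU, hU, hU]
    linarith

theorem inj_of_code30 {r N : ℕ} (D : RD r N) (cd : Fin N → ℕ)
    (hU : ∀ a i, D.v a i = ((cd a / 16 ^ i.1 % 16 : ℕ) : ℤ) - 8) (hlt : ∀ a, cd a < 16 ^ r)
    (hinj : ∀ a b, cd a = cd b → a = b) : Function.Injective D.v := by
  intro a b hab
  apply hinj
  rw [← Nat.mod_eq_of_lt (hlt a), ← Nat.mod_eq_of_lt (hlt b), ← digits30, ← digits30]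
  refine Finset.sum_congr rfl fun i hi => ?_
  have h1 := congrFun hab ⟨i, Finset.mem_range.1 hi⟩
  rw [hU, hU] at h1
  have h2 : ((cd a / 16 ^ i % 16 : ℕ) : ℤ) = ((cd b / 16 ^ i % 16 : ℕ) : ℤ) := by linarith
  have h3 : cd a / 16 ^ i % 16 = cd b / 16 ^ i % 16 := by exact_mod_cast h2
  rw [h3]

/-- a root which has inner product at most `-2` with another one is its negative -/
theorem bd_of_pd30 {r N : ℕ} (D : RD r N) (hsym : ∀ i j, D.G i j = D.G j i) (two : ∀ a, D.ip (D.v a) (D.v a) = 2)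
    (pd : ∀ x : Fin r → ℝ, x ≠ 0 → 0 < ∑ i, ∑ j, x i * (D.G i j : ℝ) * x j) (a b : Fin N) :
    -1 ≤ D.ip (D.v a) (D.v b) ∨ D.v b = -D.v a := by
  by_contra hcon
  push Not at hcon
  obtain ⟨h1, h2⟩ := hcon
  have hs : D.ip (D.v b) (D.v a) = D.ip (D.v a) (D.v b) := by
    unfold RD.ip
    rw [Finset.sum_comm]
    refine Finset.sum_congr rfl fun i _ => Finset.sum_congr rfl fun j _ => ?_
    rw [hsym j i]
    ring
  have h3 : D.ip (D.v a + D.v b) (D.v a + D.v b) = 4 + 2 * D.ip (D.v a) (D.v b) := by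
    have e : D.ip (D.v a + D.v b) (D.v a + D.v b) = D.ip (D.v a) (D.v a) + D.ip (D.v a) (D.v b) +
        D.ip (D.v b) (D.v a) + D.ip (D.v b) (D.v b) := by
      unfold RD.ip
      simp only [← Finset.sum_add_distrib, Pi.add_apply]
      refine Finset.sum_congr rfl fun i _ => Finset.sum_congr rfl fun j _ => ?_
      ring
    rw [e, hs, two, two]
    ring
  have h4 : (fun i => ((D.v a i + D.v b i : ℤ) : ℝ)) ≠ 0 := by
    intro h
    apply h2
    funext i
    have := congrFun h i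
    simp only [Pi.zero_apply] at this
    have h5 : D.v a i + D.v b i = 0 := by exact_mod_cast this
    rw [Pi.neg_apply]
    omega
  have h5 := pd _ h4
  have h6 : ∑ i, ∑ j, ((D.v a i + D.v b i : ℤ) : ℝ) * (D.G i j : ℝ) * ((D.v a j + D.v b j : ℤ) : ℝ) =
      ((D.ip (D.v a + D.v b) (D.v a + D.v b) : ℤ) : ℝ) := by
    unfold RD.ip
    push_cast
    simp only [Pi.add_apply, Int.cast_add]
  rw [h6, h3] at h5
  have h7 : 0 < 4 + 2 * D.ip (D.v a) (D.v b) := by exact_mod_cast h5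
  omega

end C9
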